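import Pool.Agent.X263.Bk.Fin
import Pool.Agent.Y75.NK.Defs

/-!
Classes in the negative `K`-groups of `RΓ` given by idempotent matrices over `R[ℤᵐ × Γ]` with
entries in `R[ℤᵐ] · g i * (g j)⁻¹` off one row and one column.
-/

set_option autoImplicit false

namespace Pool.Agent.X263.Bk

open CategoryTheory Matrix Pool.Agent.Y75.NK Pool.Agent.X263.Bc

/-- `ℤᵐ` -/
def Zm : ℕ → Type
  | 0 => PUnit
  | m + 1 => Multiplicative ℤ × Zm m

/-- the group structure -/
def zmG : ∀ m, CommGroup (Zm m)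
  | 0 => inferInstanceAs (CommGroup PUnit)
  | m + 1 => @Prod.instCommGroup _ _ _ (zmG m)

instance (m : ℕ) : CommGroup (Zm m) := zmG m

theorem ufdZ (R : Type) [CommRing R] [IsDomain R] [UniqueFactorizationMonoid R] :
    ∀ m, IsDomain (MonoidAlgebra R (Zm m)) ∧ UniqueFactorizationMonoid (MonoidAlgebra R (Zm m))
  | 0 => by
    have hs : Subsingleton (Zm 0) := inferInstanceAs (Subsingleton PUnit)
    let e : MonoidAlgebra R (Zm 0) ≃+* R := MonoidAlgebra.uniqueRingEquiv (Zm 0)
    exact ⟨MulEquiv.isDomain R e.toMulEquiv,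
      MulEquiv.uniqueFactorizationMonoid e.symm.toMulEquiv inferInstance⟩
  | m + 1 => by
    obtain ⟨h1, h2⟩ := ufdZ R m
    let e : MonoidAlgebra R (Multiplicative ℤ × Zm m) ≃+*
        LaurentPolynomial (MonoidAlgebra R (Zm m)) :=
      (MonoidAlgebra.curryRingEquiv (R := R) (M := Multiplicative ℤ) (N := Zm m)).trans
        (AddMonoidAlgebra.toMultiplicative (MonoidAlgebra R (Zm m)) ℤ).symm
    exact ⟨MulEquiv.isDomain (LaurentPolynomial (MonoidAlgebra R (Zm m))) e.toMulEquiv,
      MulEquiv.uniqueFactorizationMonoid e.symm.toMulEquiv (ufd_laurent _)⟩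

/-- `EF m G` is `G × ℤᵐ` -/
def EFi : ∀ (m : ℕ) (G : GrpCat.{0}), (EF m).obj G ≃* G × Zm m
  | 0, G => (MulEquiv.prodUnique (M := G) (N := PUnit)).symm
  | m + 1, G => (EFi m (tz.obj G)).trans
      (((MulEquiv.prodComm (M := Multiplicative ℤ) (N := G)).prodCongr (MulEquiv.refl (Zm m))).trans
        (MulEquiv.prodAssoc (M := G) (N := Multiplicative ℤ) (P := Zm m)))

theorem EFi_fst : ∀ (m : ℕ) (G : GrpCat.{0}) (x : (EF m).obj G), (EFi m G x).1 = prj m G x
  | 0, _, _ => rfl
  | m + 1, G, x => by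
    have h := EFi_fst m (tz.obj G) x
    change (EFi m (tz.obj G) x).1.2 = (prj m (tz.obj G) x).2
    rw [h]

theorem EFi_map : ∀ (m : ℕ) {G H : GrpCat.{0}} (f : G ⟶ H) (x : (EF m).obj G),
    EFi m H (((EF m).map f).hom x) = (f.hom (EFi m G x).1, (EFi m G x).2)
  | 0, _, _, _, _ => rfl
  | m + 1, G, H, f, x => by
    have h := EFi_map m (tz.map f) x
    change ((EFi m (tz.obj H) (((EF m).map (tz.map f)).hom x)).1.2,
      ((EFi m (tz.obj H) (((EF m).map (tz.map f)).hom x)).1.1,
        (EFi m (tz.obj H) (((EF m).map (tz.map f)).hom x)).2)) = _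
    rw [h]
    rfl

variable {R : Type} [CommRing R] (m : ℕ) (G : GrpCat.{0})

/-- `R[ℤᵐ × G] = R[ℤᵐ][G]` -/
noncomputable def rho (R : Type) [CommRing R] (m : ℕ) (G : GrpCat.{0}) :
    MonoidAlgebra R ((EF m).obj G) ≃+* MonoidAlgebra (MonoidAlgebra R (Zm m)) G :=
  (MonoidAlgebra.mapDomainRingEquiv R (EFi m G)).trans
    (MonoidAlgebra.curryRingEquiv (R := R) (M := G) (N := Zm m))

theorem rho_single (x : (EF m).obj G) (r : R) : rho R m G (MonoidAlgebra.single x r) =
    MonoidAlgebra.single (prj m G x) (MonoidAlgebra.single (EFi m G x).2 r) := by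
  unfold rho
  rw [RingEquiv.trans_apply, MonoidAlgebra.mapDomainRingEquiv_single, ← EFi_fst]
  exact MonoidAlgebra.curryRingEquiv_single (EFi m G x).1 (EFi m G x).2 r

/-- the trivial endomorphism -/
def tr (G : GrpCat.{0}) : G ⟶ G := GrpCat.ofHom 1

theorem rho_tr (x : MonoidAlgebra R ((EF m).obj G)) :
    psi (rho R m G x) = rho R m G (MonoidAlgebra.mapDomainRingHom R ((EF m).map (tr G)).hom x) := by
  induction x using MonoidAlgebra.induction_linear with
  | zero => simp only [map_zero]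
  | add x y hx hy => rw [map_add, map_add, map_add, map_add, hx, hy]
  | single x r =>
    rw [rho_single]
    have h1 : MonoidAlgebra.mapDomainRingHom R ((EF m).map (tr G)).hom (MonoidAlgebra.single x r) =
        MonoidAlgebra.single (((EF m).map (tr G)).hom x) r := by simp
    rw [h1, rho_single, ← EFi_fst m G (((EF m).map (tr G)).hom x), EFi_map]
    change cst (Bc.aug _) = _
    rw [Bc.aug_single]
    rfl

theorem rho_supp (x : MonoidAlgebra R ((EF m).obj G)) (a : G)
    (h : ∀ y, x.coeff y ≠ 0 → prj m G y = a) :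
    ∃ r : MonoidAlgebra R (Zm m), rho R m G x = MonoidAlgebra.single a r := by
  refine ⟨x.coeff.sum fun y c => MonoidAlgebra.single (EFi m G y).2 c, ?_⟩
  conv_lhs => rw [← MonoidAlgebra.sum_coeff_single x]
  rw [Finsupp.sum, map_sum, Finsupp.sum]
  have h1 : ∀ y ∈ x.coeff.support, rho R m G (MonoidAlgebra.single y (x.coeff y)) =
      MonoidAlgebra.single a (MonoidAlgebra.single (EFi m G y).2 (x.coeff y)) := by
    intro y hy
    rw [rho_single, h y (Finsupp.mem_support_iff.1 hy)]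
  rw [Finset.sum_congr rfl h1]
  exact (map_sum (MonoidAlgebra.singleAddHom a) _ _).symm

theorem map_inj_rho {A B : Type} [Ring A] [Ring B] (ρ : A ≃+* B) (x : K0 A) :
    K0.map ρ.symm.toRingHom (K0.map ρ.toRingHom x) = x := by
  have h1 : (K0.map ρ.symm.toRingHom).comp (K0.map ρ.toRingHom) = AddMonoidHom.id (K0 A) := by
    rw [← K0.map_comp]
    have : ρ.symm.toRingHom.comp ρ.toRingHom = RingHom.id A := by
      ext x
      simp
    rw [this, K0.map_id]
  exact DFunLike.congr_fun h1 x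

variable [IsDomain R] [UniqueFactorizationMonoid R] [UniqueProds G]

theorem cls_neg (e : Idem (MonoidAlgebra R ((EF m).obj G))) (i₀ j₀ : Fin e.n) (g : Fin e.n → G)
    (h : ∀ i j, i ≠ i₀ → j ≠ j₀ → ∀ x, (e.e i j).coeff x ≠ 0 → prj m G x = g i * (g j)⁻¹) :
    cls e = K0.map (MonoidAlgebra.mapDomainRingHom R ((EF m).map (tr G)).hom) (cls e) := by
  obtain ⟨h1, h2⟩ := ufdZ R m
  have h3 : cls (e.map (rho R m G).toRingHom) =
      K0.map cst (K0.map Bc.aug (cls (e.map (rho R m G).toRingHom))) := by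
    apply cls_border (e.map (rho R m G).toRingHom) i₀ j₀ g
    intro i j hi hj
    exact rho_supp m G (e.e i j) _ (h i j hi hj)
  have h4 : K0.map cst (K0.map Bc.aug (cls (e.map (rho R m G).toRingHom))) =
      K0.map (rho R m G).toRingHom
        (K0.map (MonoidAlgebra.mapDomainRingHom R ((EF m).map (tr G)).hom) (cls e)) := by
    rw [K0.map_cls, K0.map_cls, K0.map_cls, K0.map_cls]
    congr 1
    unfold Idem.map
    congr 1
    ext1 i j
    exact rho_tr m G (e.e i j)
  rw [h4, ← K0.map_cls] at h3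
  have h5 := congrArg (K0.map (rho R m G).symm.toRingHom) h3
  rwa [map_inj_rho, map_inj_rho] at h5

theorem kclass_neg (e : Idem (MonoidAlgebra R ((EF m).obj G))) (i₀ j₀ : Fin e.n)
    (g : Fin e.n → G)
    (h : ∀ i j, i ≠ i₀ → j ≠ j₀ → ∀ x, (e.e i j).coeff x ≠ 0 → prj m G x = g i * (g j)⁻¹) :
    kclass R m G e = ((gr R ⋙ Kneg m).map (tr G)).hom (kclass R m G e) := by
  have h1 := cls_neg m G e i₀ j₀ g h
  have h5 := congrArg (fun z => z.hom (cls e)) ((kclT R m).naturality (tr G))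
  unfold kclass
  exact (congrArg ((kclT R m).app G).hom h1).trans h5

theorem kclass_neg' (e : Idem (MonoidAlgebra R ((EF m).obj G))) (i₀ j₀ : Fin e.n)
    (g : Fin e.n → G)
    (h : ∀ i j, i ≠ i₀ → j ≠ j₀ → ∀ x, (e.e i j).coeff x ≠ 0 → prj m G x = g i * (g j)⁻¹) :
    kclass R m G e = ((Kneg m).map (RingCat.ofHom (cst (R := R) (Γ := G)))).hom
      (((Kneg m).map (RingCat.ofHom (Bc.aug (R := R) (Γ := G)))).hom (kclass R m G e)) := by
  have h1 := kclass_neg m G e i₀ j₀ g h
  have h2 : (gr R).map (tr G) = RingCat.ofHom (Bc.aug (R := R) (Γ := G)) ≫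
      RingCat.ofHom (cst (R := R) (Γ := G)) := by
    apply RingCat.hom_ext
    apply RingHom.ext
    intro x
    change MonoidAlgebra.mapDomainRingHom R (1 : G →* G) x = cst (Bc.aug x)
    induction x using MonoidAlgebra.induction_linear with
    | zero => simp only [map_zero]
    | add x y hx hy => rw [map_add, map_add, map_add, hx, hy]
    | single x r =>
      rw [Bc.aug_single]
      simp [cst_def]
  have h3 : (gr R ⋙ Kneg m).map (tr G) = (Kneg m).map (RingCat.ofHom (Bc.aug (R := R) (Γ := G))) ≫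
      (Kneg m).map (RingCat.ofHom (cst (R := R) (Γ := G))) := by
    rw [← (Kneg m).map_comp, ← h2]
    rfl
  rw [h3] at h1
  exact h1

end Pool.Agent.X263.Bk
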